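import Mathlib
import Pool.Agent.Q277.TriangleSums

/-!
# Weighted sums of binomial power sums are divisible by `2n`

For all `r ≥ 0` and `n ≥ 1`, `∑_{k<n} (-1)^{rk} (3k+2) f_k^{(r)}` is divisible by `2n`, where
`f_k^{(r)} = ∑_j C(k,j)^r`.
-/

open Finset

namespace Pool.Agent.Results.MP_ede29a_nt.AllExponents

/-- `f_n^{(r)} = ∑_{k=0}^n C(n,k)^r`. -/
def f (r n : ℕ) : ℕ := ∑ k ∈ range (n + 1), n.choose k ^ r

/-- `S_r(n) = ∑_{k=0}^{n-1} (-1)^{rk} (3k+2) f_k^{(r)}`. -/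
def S (r n : ℕ) : ℤ := ∑ k ∈ range n, (-1) ^ (r * k) * (3 * (k : ℤ) + 2) * (f r k : ℤ)

theorem S_eq (r n : ℕ) : S r n = Q277.TriangleSums.S r n := by
  unfold S Q277.TriangleSums.S f
  push_cast
  rfl

theorem S_zero (n : ℕ) : S 0 n = (n : ℤ) ^ 3 + (n : ℤ) ^ 2 := by
  unfold S f
  induction n with
  | zero => simp
  | succ n ih =>
    rw [Finset.sum_range_succ, ih]
    simp only [pow_zero, Finset.sum_const, Finset.card_range, smul_eq_mul, mul_one, zero_mul]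
    push_cast
    ring

/-- For all `r ≥ 0` and all `n ≥ 1` the sum `S_r(n)` is divisible by `2n`. -/
theorem result : ∀ r n : ℕ, 1 ≤ n → (2 * (n : ℤ)) ∣ S r n := by
  intro r n _
  rcases Nat.eq_zero_or_pos r with h | h
  · subst h
    rw [S_zero]
    obtain ⟨c, hc⟩ := (Int.even_mul_succ_self (n : ℤ)).two_dvd
    exact ⟨c, by linear_combination (n : ℤ) * hc⟩
  · rw [S_eq]
    exact Q277.TriangleSums.two_mul_dvd_S r n h

end Pool.Agent.Results.MP_ede29a_nt.AllExponents
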